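import Mathlib
import Pool.Agent.W223.AK.Basic

/-!
# Pairs of ideals with quotient close to one
-/

set_option autoImplicit false
set_option linter.unusedSectionVars false

namespace Pool.Agent.W596.AK

open NumberField IsDedekindDomain Finset Pool.Agent.H691R3 Pool.Agent.W223.AK

variable {K : Type} [Field K] [NumberField K]

/-- indicator of the primes with exponent `m + 1` -/
noncomputable def ind (a : Idl K) (m : ℕ) : Idl K :=
  (ex a {m + 1}).mapRange (fun k => if k = 0 then 0 else 1) (by simp)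

theorem ind_apply (a : Idl K) (m : ℕ) (v : Pr K) : ind a m v = if a v = m + 1 then 1 else 0 := by
  classical
  unfold ind
  rw [Finsupp.mapRange_apply, ex_apply]
  by_cases h : a v = m + 1
  · simp [h]
  · simp [h]

theorem decomp (a : Idl K) (n : ℕ) :
    a = ∑ i : Fin n, ((i : ℕ) + 1) • ind a i + ex a {m | n < m} := by
  classical
  ext v
  rw [Finsupp.add_apply, Finsupp.finsetSum_apply, ex_apply]
  simp only [Finsupp.smul_apply, ind_apply, Set.mem_ofPred_eq, smul_eq_mul]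
  by_cases h0 : n < a v
  · rw [if_pos h0, Finset.sum_eq_zero, zero_add]
    intro i _
    rw [if_neg]
    · simp
    · have := i.2; omega
  · rw [if_neg h0, add_zero]
    by_cases h1 : a v = 0
    · rw [h1, Finset.sum_eq_zero]
      intro i _
      rw [if_neg (by omega)]; simp
    · rw [Finset.sum_eq_single (⟨a v - 1, by omega⟩ : Fin n)]
      · rw [if_pos (by simp; omega)]
        simp; omega
      · intro i _ hi
        rw [if_neg]
        · simp
        · intro h2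
          apply hi
          ext
          simp [h2]
      · intro h; exact absurd (mem_univ _) h

theorem gen_decomp (ϖ : Pr K → K) (a : Idl K) (n : ℕ) :
    gen ϖ a = gen ϖ (ex a {m | n < m}) * ∏ i : Fin n, gen ϖ (ind a i) ^ ((i : ℕ) + 1) := by
  conv_lhs => rw [decomp a n]
  rw [gen_add, gen_sum, mul_comm]
  congr 1
  exact Finset.prod_congr rfl fun i _ => gen_nsmul ϖ _ _

theorem len_ind (a : Idl K) (m : ℕ) : len (ind a m) = rl (ex a {m + 1}) := by
  classical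
  have hs : (ind a m).support = (ex a {m + 1}).support := by
    ext v
    rw [Finsupp.mem_support_iff, ind_apply, ex_support]
    by_cases h : a v = m + 1
    · simp [h]
    · simp [h]
  unfold len rl
  rw [hs]
  refine Finset.sum_congr rfl fun v hv => ?_
  rw [← hs, Finsupp.mem_support_iff, ind_apply] at hv
  rw [ind_apply]
  split_ifs at hv ⊢ with h
  · simp
  · exact absurd rfl hv

theorem ind_le (a : Idl K) (m : ℕ) : ind a m ≤ a := by
  intro v
  rw [ind_apply]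
  split_ifs with h
  · omega
  · exact Nat.zero_le _

theorem pairs_bound {S : Finset (Pr K)} {ϖ : Pr K → K} {C : ℝ} (hU : Unif S ϖ C)
    (hJ : StmtJK S ϖ) (hC : StmtCNT K) (n : ℕ) (hn : SGood S n) (ε A : ℝ) (hε : 0 < ε)
    (hA : 0 ≤ A) : ∃ D : ℝ, 0 < D ∧
    ∀ (X : ℝ) (f : Idl K) (V : Finset (Pl K)) (σ : Pl K → ℝ) (ν : Fin n → ℝ) (τ : ℝ)
      (Q : Finset (Idl K × Idl K)),
    0 ≤ X → OffS S f → len f ≤ X → V ⊆ Spl S → (∀ v ∈ V, 0 ≤ σ v) → (∀ i, 0 ≤ ν i) →
    ∑ i, ν i ≤ X →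
    (∀ t ∈ Q, (OffS S t.1 ∧ Cop t.1 f ∧ len t.1 ≤ X ∧
        (∀ i : Fin n, rl (ex t.1 {(i : ℕ) + 1}) ≤ ν i) ∧ rl (ex t.1 {m | n < m}) ≤ τ) ∧
      (OffS S t.2 ∧ Cop t.2 f ∧ len t.2 ≤ X ∧
        (∀ i : Fin n, rl (ex t.2 {(i : ℕ) + 1}) ≤ ν i) ∧ rl (ex t.2 {m | n < m}) ≤ τ) ∧
      Cl f V σ A (gen ϖ t.1 / gen ϖ t.2)) →
    (Q.card : ℝ) ≤ D * Real.exp (ε * X + 2 * τ + ∑ i, ν i) *
      (1 + Real.exp (3 / 2 * ∑ i, ν i - lenM f V σ)) := by
  classical
  obtain ⟨D₁, hD₁, h₁⟩ := hC (ε / 3) (by positivity)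
  obtain ⟨D₂, hD₂, h₂⟩ := hJ n hn (ε / 3) A (by positivity) hA
  refine ⟨D₁ * D₁ * D₂, by positivity, ?_⟩
  intro X f V σ ν τ Q hX hf hfX hV hσ hν hνX hQ
  set T₁ : Finset (Idl K) := Q.image (fun t => ex t.1 {m | n < m}) with hT₁
  set T₂ : Finset (Idl K) := Q.image (fun t => ex t.2 {m | n < m}) with hT₂
  have c₁ : (T₁.card : ℝ) ≤ D₁ * Real.exp (τ + ε / 3 * X) := by
    apply h₁ X τ T₁ hX
    intro a ha
    rw [hT₁, mem_image] at ha
    obtain ⟨t, ht, rfl⟩ := ha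
    obtain ⟨⟨-, -, q3, -, q5⟩, -⟩ := hQ t ht
    exact ⟨q5, (len_mono (ex_le _ _)).trans q3⟩
  have c₂ : (T₂.card : ℝ) ≤ D₁ * Real.exp (τ + ε / 3 * X) := by
    apply h₁ X τ T₂ hX
    intro a ha
    rw [hT₂, mem_image] at ha
    obtain ⟨t, ht, rfl⟩ := ha
    obtain ⟨-, ⟨-, -, q3, -, q5⟩, -⟩ := hQ t ht
    exact ⟨q5, (len_mono (ex_le _ _)).trans q3⟩
  set B : ℝ := D₂ * Real.exp (ε / 3 * X + ∑ i, ν i) *
      (1 + Real.exp (3 / 2 * ∑ i, ν i - lenM f V σ)) with hB
  have hB0 : 0 ≤ B := by positivity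
  have hfib := Finset.card_eq_sum_card_fiberwise
    (f := fun t : Idl K × Idl K => (ex t.1 {m | n < m}, ex t.2 {m | n < m}))
    (s := Q) (t := T₁ ×ˢ T₂) (fun t ht => by
      simp only [Finset.coe_product, Set.mem_prod, Finset.mem_coe]
      exact ⟨mem_image_of_mem _ ht, mem_image_of_mem _ ht⟩)
  have hone : ∀ b ∈ T₁ ×ˢ T₂, ((Q.filter (fun t : Idl K × Idl K =>
      (ex t.1 {m | n < m}, ex t.2 {m | n < m}) = b)).card : ℝ) ≤ B := by
    intro b _
    set Qb := Q.filter (fun t : Idl K × Idl K =>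
      (ex t.1 {m | n < m}, ex t.2 {m | n < m}) = b) with hQb
    set φ : Idl K × Idl K → (Fin n → Idl K) × (Fin n → Idl K) :=
      fun t => (fun i => ind t.1 i, fun i => ind t.2 i) with hφ
    have hinj : Set.InjOn φ Qb := by
      intro t ht t' ht' h
      rw [Finset.mem_coe, hQb, mem_filter] at ht ht'
      have e := ht.2.trans ht'.2.symm
      simp only [Prod.mk.injEq] at e
      rw [hφ] at h
      simp only [Prod.mk.injEq] at h
      obtain ⟨i1, i2⟩ := h
      apply Prod.ext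
      · rw [decomp t.1 n, decomp t'.1 n, e.1]
        congr 1
        exact Finset.sum_congr rfl fun i _ => by rw [congrFun i1 i]
      · rw [decomp t.2 n, decomp t'.2 n, e.2]
        congr 1
        exact Finset.sum_congr rfl fun i _ => by rw [congrFun i2 i]
    rw [← Finset.card_image_of_injOn hinj]
    apply h₂ X f V σ ν (gen ϖ b.1 / gen ϖ b.2) (Qb.image φ) hX hf hfX hV hσ hν hνX
      (div_ne_zero (gen_ne hU _) (gen_ne hU _))
    intro z hz
    rw [mem_image] at hz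
    obtain ⟨t, ht, rfl⟩ := hz
    rw [hQb, mem_filter] at ht
    obtain ⟨htQ, htb⟩ := ht
    obtain ⟨⟨q1, q2, q3, q4, q5⟩, ⟨r1, r2, r3, r4, r5⟩, q6⟩ := hQ t htQ
    refine ⟨fun i => ⟨q1.mono (ind_le _ _), q2.mono_left (ind_le _ _), ?_⟩,
      fun i => ⟨r1.mono (ind_le _ _), r2.mono_left (ind_le _ _), ?_⟩, ?_⟩
    · rw [len_ind]; exact q4 i
    · rw [len_ind]; exact r4 i
    · have e : gen ϖ b.1 / gen ϖ b.2 * ∏ i : Fin n,
          (gen ϖ ((φ t).1 i) / gen ϖ ((φ t).2 i)) ^ ((i : ℕ) + 1) = gen ϖ t.1 / gen ϖ t.2 := by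
        rw [← htb, hφ]
        simp only []
        rw [gen_decomp ϖ t.1 n, gen_decomp ϖ t.2 n]
        simp only [div_pow]
        rw [Finset.prod_div_distrib]
        rw [div_mul_div_comm]
      rw [e]; exact q6
  rw [hfib]
  push_cast
  calc ∑ b ∈ T₁ ×ˢ T₂, ((Q.filter (fun t : Idl K × Idl K =>
      (ex t.1 {m | n < m}, ex t.2 {m | n < m}) = b)).card : ℝ)
      ≤ ∑ b ∈ T₁ ×ˢ T₂, B := Finset.sum_le_sum hone
    _ = (T₁.card : ℝ) * (T₂.card : ℝ) * B := by
        rw [Finset.sum_const, Finset.card_product, nsmul_eq_mul]; push_cast; ring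
    _ ≤ (D₁ * Real.exp (τ + ε / 3 * X)) * (D₁ * Real.exp (τ + ε / 3 * X)) * B := by gcongr
    _ = D₁ * D₁ * D₂ * Real.exp (ε * X + 2 * τ + ∑ i, ν i) *
      (1 + Real.exp (3 / 2 * ∑ i, ν i - lenM f V σ)) := by
        rw [hB]
        have : Real.exp (ε * X + 2 * τ + ∑ i, ν i) = Real.exp (τ + ε / 3 * X) *
            Real.exp (τ + ε / 3 * X) * Real.exp (ε / 3 * X + ∑ i, ν i) := by
          rw [← Real.exp_add, ← Real.exp_add]; congr 1; ring
        rw [this]; ring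

end Pool.Agent.W596.AK
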