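import Mathlib
import Pool.Agent.W223.AK.Point
import Pool.Agent.W596.AK.EstA

/-!
# The energy bound for a cell
-/

set_option autoImplicit false
set_option linter.unusedSectionVars false

namespace Pool.Agent.W596.AK

open NumberField IsDedekindDomain Finset Pool.Agent.H691R3 Pool.Agent.W223.AK

variable {K : Type} [Field K] [NumberField K]

theorem mt_log2 (v : Pl K) : mt v * Real.log 2 ≤ 7 / 5 := by
  have h1 := mt_le_two v
  have h2 := Real.log_two_lt_d9
  have h3 : 0 ≤ Real.log 2 := Real.log_nonneg (by norm_num)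
  have h4 := mt_pos v
  nlinarith

theorem mt_log4 (v : Pl K) : mt v * Real.log 4 ≤ 3 := by
  have h1 := mt_le_two v
  have h2 := Real.log_two_lt_d9
  have h3 : 0 ≤ Real.log 2 := Real.log_nonneg (by norm_num)
  have h4 := mt_pos v
  have h5 : Real.log 4 = 2 * Real.log 2 := by
    rw [show (4 : ℝ) = 2 ^ 2 by norm_num, Real.log_pow]; push_cast; ring
  rw [h5]
  nlinarith

/-- the part of a point over which it is constant -/
noncomputable def su (ϖ : Pr K → K) (P : K → Fin 3 → Idl K) (p q : Fin 3) (x : K) : K :=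
  yy p q x * (gen ϖ (P x q) / gen ϖ (P x p))

theorem yy_Cl {S : Finset (Pr K)} {x : K} {P : Fin 3 → Idl K} (hx : Pt x) (hP : IsP S x P)
    {p q r : Fin 3} (hpq : p ≠ q) (hqr : q ≠ r) (hpr : p ≠ r) (F : Set ℕ) (σ : Pl K → ℝ)
    (hσ : ∀ v ∈ Spl S, |lm v r x - σ v| ≤ 1) :
    Cl (ex (P r) F) ((Spl S).filter fun v => 5 ≤ σ v) σ 3 (yy p q x) := by
  classical
  constructor
  · intro v hv
    rw [ex_apply] at hv ⊢
    split_ifs at hv ⊢ with h
    · exact (yy_cong hx hP hpq hqr hpr hv).le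
    · exact absurd rfl hv
  · intro v hv
    rw [mem_filter] at hv
    have h1 := abs_le.1 (hσ v hv.1)
    have h2 := mt_log4 v
    have h3 := mt_log2 v
    refine (yy_close hx hpq hqr hpr (by linarith [h1.1])).trans ?_
    apply Real.exp_le_exp.2
    linarith [h1.1]

theorem est {S : Finset (Pr K)} {ϖ : Pr K → K} {C : ℝ} (hU : Unif S ϖ C) (hJ : StmtJK S ϖ)
    (hC : StmtCNT K) (hS : StmtSU K) (hCS : StmtCS) : StmtEST S := by
  classical
  intro n hn ε hε
  have hC1 := hU.one_le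
  set ε₁ : ℝ := ε / 3 with hε₁
  have hε₁0 : 0 < ε₁ := by positivity
  obtain ⟨D₁, hD₁, h₁⟩ := hC ε₁ hε₁0
  obtain ⟨D₂, hD₂, h₂⟩ := hS S (ε₁ / (2 * C + 2)) (by positivity)
  obtain ⟨D₃, hD₃, h₃⟩ := pairs_bound hU hJ hC n hn ε₁ 6 hε₁0 (by norm_num)
  set k₁ : ℝ := 5 * ((Spl S).card : ℝ) with hk₁
  have hk₁0 : 0 ≤ k₁ := by positivity
  have hcS := cS_nonneg S
  refine ⟨D₁ * D₂ * (D₃ * (2 * Real.exp k₁)) * Real.exp (ε * cS S), by positivity, ?_⟩
  intro X E P p q r F ν τ c Λ σ hX hE hpq hqr hpr hν hνX hrl hrt hrf hσ hΛ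
  set X' : ℝ := X + cS S with hX'
  have hX'0 : 0 ≤ X' := by positivity
  have hlenX : ∀ x ∈ E, ∀ l, len (P x l) ≤ X' := by
    intro x hx l
    obtain ⟨h1, h2, h3⟩ := hE x hx
    have := len_le h1 h2 l
    linarith
  -- the classes
  set F₁ : Finset (Idl K) := E.image (fun x => ex (P x r) F) with hF₁
  set S₁ : Finset K := E.image (fun x => su ϖ P p q x) with hS₁
  have c₁ : (F₁.card : ℝ) ≤ D₁ * Real.exp (c + ε₁ * X') := by
    apply h₁ X' c F₁ hX'0
    intro a ha
    rw [hF₁, mem_image] at ha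
    obtain ⟨x, hx, rfl⟩ := ha
    exact ⟨hrf x hx, (len_mono (ex_le _ _)).trans (hlenX x hx r)⟩
  have c₂ : (S₁.card : ℝ) ≤ D₂ * Real.exp (ε₁ * X') := by
    have h0 : 0 < 2 * C + 2 := by linarith
    have := h₂ ((2 * C + 2) * X') S₁ (by positivity) (by
      intro y hy
      rw [hS₁, mem_image] at hy
      obtain ⟨x, hx, rfl⟩ := hy
      obtain ⟨g1, g2, g3⟩ := hE x hx
      refine ⟨?_, ?_, ?_⟩
      · unfold su
        exact mul_ne_zero (yy_ne g1 p q) (div_ne_zero (gen_ne hU _) (gen_ne hU _))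
      · intro v hv
        exact unit_fv hU g2 p q hv
      · intro v hv
        refine (unit_spec hU g1 g2 p q hv).trans ?_
        apply mul_le_mul_of_nonneg_left _ h0.le
        linarith)
    have e : ε₁ / (2 * C + 2) * ((2 * C + 2) * X') = ε₁ * X' := by field_simp
    rw [e] at this
    exact this
  -- bounds for the pairs
  set V : Finset (Pl K) := (Spl S).filter fun v => 5 ≤ σ v with hV
  have hVS : V ⊆ Spl S := filter_subset _ _
  have hVσ : ∀ v ∈ V, 0 ≤ σ v := by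
    intro v hv
    rw [hV, mem_filter] at hv
    linarith [hv.2]
  have hV5 : ∀ v ∈ V, (3 : ℝ) + mt v * Real.log 2 ≤ σ v := by
    intro v hv
    rw [hV, mem_filter] at hv
    have := mt_log2 v
    linarith [hv.2]
  set M : Fin 3 → ℝ := fun l => 2 * τ l + ∑ i, ν l i + max 0 (3 / 2 * ∑ i, ν l i - Λ) with hM
  have hpairs : ∀ (l : Fin 3), l ≠ r → ∀ x₀ ∈ E, ∀ Q : Finset (Idl K × Idl K),
      (∀ t ∈ Q, ∃ x ∈ E, ∃ x' ∈ E, t = (P x l, P x' l) ∧ ex (P x r) F = ex (P x₀ r) F ∧
        ex (P x' r) F = ex (P x₀ r) F ∧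
        ((gen ϖ (P x l) / gen ϖ (P x' l) = yy p q x / yy p q x') ∨
         (gen ϖ (P x l) / gen ϖ (P x' l) = yy p q x' / yy p q x))) →
      (Q.card : ℝ) ≤ (D₃ * (2 * Real.exp k₁)) * Real.exp (ε₁ * X') * Real.exp (M l) := by
    intro l hlr x₀ hx₀ Q hQ
    have hP₀ := (hE x₀ hx₀).2.1
    have hb := h₃ X' (ex (P x₀ r) F) V σ (ν l) (τ l) Q hX'0 ((hP₀.off r).ex F)
      ((len_mono (ex_le _ _)).trans (hlenX x₀ hx₀ r)) hVS hVσ (hν l) ((hνX l).trans (by linarith))
      (by
        intro t ht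
        obtain ⟨x, hx, x', hx', rfl, hfx, hfx', hq⟩ := hQ t ht
        obtain ⟨g1, g2, g3⟩ := hE x hx
        obtain ⟨g1', g2', g3'⟩ := hE x' hx'
        have cl := yy_Cl g1 g2 hpq hqr hpr F σ (hσ x hx)
        have cl' := yy_Cl g1' g2' hpq hqr hpr F σ (hσ x' hx')
        rw [hfx] at cl
        rw [hfx'] at cl'
        refine ⟨⟨g2.off l, ?_, hlenX x hx l, fun i => hrl x hx l i, hrt x hx l⟩,
          ⟨g2'.off l, ?_, hlenX x' hx' l, fun i => hrl x' hx' l i, hrt x' hx' l⟩, ?_⟩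
        · rw [← hfx]
          exact ((g2.cop hlr).symm.mono_left (ex_le _ _)).symm
        · rw [← hfx']
          exact ((g2'.cop hlr).symm.mono_left (ex_le _ _)).symm
        · have e6 : (6 : ℝ) = 3 + 3 := by norm_num
          rw [e6]
          simp only []
          rcases hq with hq | hq
          · rw [hq]; exact Cl_div cl cl' hV5
          · rw [hq]; exact Cl_div cl' cl hV5)
    have hlenM : Λ - k₁ ≤ lenM (ex (P x₀ r) F) V σ := by
      have h1 := hΛ x₀ hx₀
      have h2 : ∑ v ∈ Spl S, σ v ≤ ∑ v ∈ V, σ v + k₁ := by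
        rw [← Finset.sum_filter_add_sum_filter_not (Spl S) (fun v => 5 ≤ σ v)]
        have h3 : ∑ v ∈ (Spl S).filter (fun v => ¬ 5 ≤ σ v), σ v ≤
            ∑ v ∈ (Spl S).filter (fun v => ¬ 5 ≤ σ v), (5 : ℝ) := by
          apply Finset.sum_le_sum
          intro v hv
          rw [mem_filter] at hv
          exact (not_le.1 hv.2).le
        rw [Finset.sum_const, nsmul_eq_mul] at h3
        have h4 : (((Spl S).filter (fun v => ¬ 5 ≤ σ v)).card : ℝ) ≤ ((Spl S).card : ℝ) := by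
          exact_mod_cast Finset.card_le_card (filter_subset _ _)
        rw [hk₁]
        linarith
      unfold lenM
      linarith
    have hexp : 1 + Real.exp (3 / 2 * ∑ i, ν l i - lenM (ex (P x₀ r) F) V σ) ≤
        2 * Real.exp k₁ * Real.exp (max 0 (3 / 2 * ∑ i, ν l i - Λ)) := by
      have h1 : (1 : ℝ) ≤ Real.exp (k₁ + max 0 (3 / 2 * ∑ i, ν l i - Λ)) :=
        Real.one_le_exp (add_nonneg hk₁0 (le_max_left _ _))
      have h2 : Real.exp (3 / 2 * ∑ i, ν l i - lenM (ex (P x₀ r) F) V σ) ≤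
          Real.exp (k₁ + max 0 (3 / 2 * ∑ i, ν l i - Λ)) := by
        apply Real.exp_le_exp.2
        have := le_max_right 0 (3 / 2 * ∑ i, ν l i - Λ)
        linarith
      rw [Real.exp_add] at h1 h2
      linarith
    calc (Q.card : ℝ) ≤ _ := hb
      _ ≤ D₃ * Real.exp (ε₁ * X' + 2 * τ l + ∑ i, ν l i) *
          (2 * Real.exp k₁ * Real.exp (max 0 (3 / 2 * ∑ i, ν l i - Λ))) := by gcongr
      _ = (D₃ * (2 * Real.exp k₁)) * Real.exp (ε₁ * X') * Real.exp (M l) := by
          have e1 : Real.exp (M l) = Real.exp (2 * τ l + ∑ i, ν l i) *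
              Real.exp (max 0 (3 / 2 * ∑ i, ν l i - Λ)) := by
            rw [← Real.exp_add]
          have e2 : Real.exp (ε₁ * X' + 2 * τ l + ∑ i, ν l i) =
              Real.exp (ε₁ * X') * Real.exp (2 * τ l + ∑ i, ν l i) := by
            rw [← Real.exp_add]; congr 1; ring
          rw [e1, e2]; ring
  -- one class
  set B : ℝ := (D₃ * (2 * Real.exp k₁)) * Real.exp (ε₁ * X') * Real.exp ((M p + M q) / 2) with hB
  have hB0 : 0 ≤ B := by positivity
  have hclass : ∀ b ∈ F₁ ×ˢ S₁,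
      ((E.filter (fun x => (ex (P x r) F, su ϖ P p q x) = b)).card : ℝ) ≤ B := by
    intro b _
    set Eb := E.filter (fun x => (ex (P x r) F, su ϖ P p q x) = b) with hEb
    rcases Eb.eq_empty_or_nonempty with h0 | ⟨x₀, hx₀b⟩
    · rw [h0]; simpa using hB0
    have hEbE : ∀ x ∈ Eb, x ∈ E := fun x hx => (mem_filter.1 hx).1
    have hfeq : ∀ x ∈ Eb, ex (P x r) F = b.1 := fun x hx => by
      rw [← (mem_filter.1 hx).2]
    have hseq : ∀ x ∈ Eb, su ϖ P p q x = b.2 := fun x hx => by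
      rw [← (mem_filter.1 hx).2]
    have hx₀ := hEbE x₀ hx₀b
    set R : Finset (Idl K × Idl K) := Eb.image (fun x => (P x p, P x q)) with hR
    have hinj : Set.InjOn (fun x => (P x p, P x q)) (Eb : Set K) := by
      intro x hx x' hx' h
      rw [Finset.mem_coe] at hx hx'
      simp only [Prod.mk.injEq] at h
      have s1 := (hseq x hx).trans (hseq x' hx').symm
      unfold su at s1
      rw [h.1, h.2] at s1
      have s2 : yy p q x = yy p q x' := mul_right_cancel₀
        (div_ne_zero (gen_ne hU _) (gen_ne hU _)) s1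
      unfold yy at s2
      have s3 := mul_left_cancel₀ (neg_ne_zero.mpr (mul_ne_zero (sgn_ne p) (sgn_ne q))) s2
      exact L_quot_inj (hE x (hEbE x hx)).1 (hE x' (hEbE x' hx')).1 hpq s3
    have hRc : R.card = Eb.card := Finset.card_image_of_injOn hinj
    set SA : Finset (Idl K × Idl K) := ((Eb ×ˢ Eb).filter (fun z => P z.1 q = P z.2 q)).image
      (fun z => (P z.1 p, P z.2 p)) with hSA
    set SB : Finset (Idl K × Idl K) := ((Eb ×ˢ Eb).filter (fun z => P z.1 p = P z.2 p)).image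
      (fun z => (P z.1 q, P z.2 q)) with hSB
    have hcs := hCS (Idl K) (Idl K) R SA SB (by
      intro t ht t' ht' h
      rw [hR, mem_image] at ht ht'
      obtain ⟨x, hx, rfl⟩ := ht
      obtain ⟨x', hx', rfl⟩ := ht'
      rw [hSA, mem_image]
      exact ⟨(x, x'), mem_filter.2 ⟨mem_product.2 ⟨hx, hx'⟩, h⟩, rfl⟩) (by
      intro t ht t' ht' h
      rw [hR, mem_image] at ht ht'
      obtain ⟨x, hx, rfl⟩ := ht
      obtain ⟨x', hx', rfl⟩ := ht'
      rw [hSB, mem_image]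
      exact ⟨(x, x'), mem_filter.2 ⟨mem_product.2 ⟨hx, hx'⟩, h⟩, rfl⟩)
    -- the relation between the quotients
    have hrel : ∀ x ∈ Eb, ∀ x' ∈ Eb, yy p q x / yy p q x' =
        (gen ϖ (P x p) / gen ϖ (P x' p)) * (gen ϖ (P x' q) / gen ϖ (P x q)) := by
      intro x hx x' hx'
      have s1 := (hseq x hx).trans (hseq x' hx').symm
      unfold su at s1
      have n1 := gen_ne hU (P x p)
      have n2 := gen_ne hU (P x q)
      have n3 := gen_ne hU (P x' p)
      have n4 := gen_ne hU (P x' q)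
      have n5 := yy_ne (hE x' (hEbE x' hx')).1 p q
      field_simp at s1 ⊢
      linear_combination s1
    have hSAc : (SA.card : ℝ) ≤
        (D₃ * (2 * Real.exp k₁)) * Real.exp (ε₁ * X') * Real.exp (M p) := by
      apply hpairs p hpr x₀ hx₀ SA
      intro t ht
      rw [hSA, mem_image] at ht
      obtain ⟨⟨x, x'⟩, hz, rfl⟩ := ht
      rw [mem_filter, mem_product] at hz
      obtain ⟨⟨hx, hx'⟩, h⟩ := hz
      simp only at hx hx' h
      refine ⟨x, hEbE x hx, x', hEbE x' hx', rfl, ?_, ?_, ?_⟩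
      · rw [hfeq x hx, hfeq x₀ hx₀b]
      · rw [hfeq x' hx', hfeq x₀ hx₀b]
      · left
        rw [hrel x hx x' hx', h, div_self (gen_ne hU _), mul_one]
    have hSBc : (SB.card : ℝ) ≤
        (D₃ * (2 * Real.exp k₁)) * Real.exp (ε₁ * X') * Real.exp (M q) := by
      apply hpairs q hqr x₀ hx₀ SB
      intro t ht
      rw [hSB, mem_image] at ht
      obtain ⟨⟨x, x'⟩, hz, rfl⟩ := ht
      rw [mem_filter, mem_product] at hz
      obtain ⟨⟨hx, hx'⟩, h⟩ := hz
      simp only at hx hx' h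
      refine ⟨x, hEbE x hx, x', hEbE x' hx', rfl, ?_, ?_, ?_⟩
      · rw [hfeq x hx, hfeq x₀ hx₀b]
      · rw [hfeq x' hx', hfeq x₀ hx₀b]
      · right
        rw [hrel x' hx' x hx, h, div_self (gen_ne hU _), one_mul]
    rw [hRc] at hcs
    have hsq : ((Eb.card : ℝ)) ^ 2 ≤ B ^ 2 := by
      calc ((Eb.card : ℝ)) ^ 2 ≤ SA.card * SB.card := hcs
        _ ≤ ((D₃ * (2 * Real.exp k₁)) * Real.exp (ε₁ * X') * Real.exp (M p)) *
            ((D₃ * (2 * Real.exp k₁)) * Real.exp (ε₁ * X') * Real.exp (M q)) := by gcongr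
        _ = B ^ 2 := by
            rw [hB]
            have : Real.exp ((M p + M q) / 2) ^ 2 = Real.exp (M p) * Real.exp (M q) := by
              rw [← Real.exp_nat_mul, ← Real.exp_add]; congr 1; push_cast; ring
            rw [mul_pow, this]; ring
    exact le_of_sq_le_sq hsq hB0
  have hfib := Finset.card_eq_sum_card_fiberwise
    (f := fun x : K => (ex (P x r) F, su ϖ P p q x)) (s := E) (t := F₁ ×ˢ S₁) (fun x hx => by
      simp only [Finset.coe_product, Set.mem_prod, Finset.mem_coe]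
      exact ⟨mem_image_of_mem _ hx, mem_image_of_mem _ hx⟩)
  rw [hfib]
  push_cast
  calc ∑ b ∈ F₁ ×ˢ S₁, ((E.filter (fun x => (ex (P x r) F, su ϖ P p q x) = b)).card : ℝ)
      ≤ ∑ b ∈ F₁ ×ˢ S₁, B := Finset.sum_le_sum hclass
    _ = (F₁.card : ℝ) * (S₁.card : ℝ) * B := by
        rw [Finset.sum_const, Finset.card_product, nsmul_eq_mul]; push_cast; ring
    _ ≤ (D₁ * Real.exp (c + ε₁ * X')) * (D₂ * Real.exp (ε₁ * X')) * B := by gcongr
    _ = D₁ * D₂ * (D₃ * (2 * Real.exp k₁)) * Real.exp (ε * cS S) * Real.exp (ε * X + c +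
      1 / 2 * (2 * τ p + ∑ i, ν p i + max 0 (3 / 2 * ∑ i, ν p i - Λ)) +
      1 / 2 * (2 * τ q + ∑ i, ν q i + max 0 (3 / 2 * ∑ i, ν q i - Λ))) := by
        rw [hB]
        have e1 : Real.exp (ε * X + c + 1 / 2 * M p + 1 / 2 * M q) * Real.exp (ε * cS S) =
            Real.exp (c + ε₁ * X') * Real.exp (ε₁ * X') * Real.exp (ε₁ * X') *
              Real.exp ((M p + M q) / 2) := by
          rw [← Real.exp_add, ← Real.exp_add, ← Real.exp_add, ← Real.exp_add]
          congr 1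
          rw [hε₁, hX']; ring
        calc _ = D₁ * D₂ * (D₃ * (2 * Real.exp k₁)) * (Real.exp (c + ε₁ * X') *
              Real.exp (ε₁ * X') * Real.exp (ε₁ * X') * Real.exp ((M p + M q) / 2)) := by ring
          _ = D₁ * D₂ * (D₃ * (2 * Real.exp k₁)) * (Real.exp (ε * X + c + 1 / 2 * M p +
              1 / 2 * M q) * Real.exp (ε * cS S)) := by rw [e1]
          _ = _ := by rw [hM]; ring

end Pool.Agent.W596.AK
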